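import Mathlib

/-!
A counterexample to the non-negativity of the coefficients of the logarithm of the naive mirror
map: `d = 3`, `p = 2`, `q = (3, 3)`,
`v₁ = ((-1,0,0), (1,0,1), (1,0,-1))`, `v₂ = ((0,1,0), (0,-1,1), (0,-1,-1))`.
The polytope `Δ = Δ₁ + Δ₂` is `|x| ≤ 1, |y| ≤ 1, |z| ≤ 1 + (x - y) / 2`, whose only interior lattice
point is `0`. The coefficient of `φ₁₁ / φ₀` at `k = (2,1,1; 2,1,1)` is `-16`.
-/

open scoped Pointwise
open Finset

namespace Pool.Agent.Results.MP_3570a5_nt.NegativeCoefficient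

/-- The index set `I = {(i,j) : 1 ≤ i ≤ p, 1 ≤ j ≤ q_i}`. -/
abbrev Idx {p : ℕ} (q : Fin p → ℕ) : Type := (i : Fin p) × Fin (q i)

/-- The exponent `k` (with non-negative entries) lies in `K₀`: `∑ k_{ij} v_{ij} = 0`. -/
def InK0 {d p : ℕ} {q : Fin p → ℕ} (v : Idx q → Fin d → ℤ) (k : Idx q →₀ ℕ) : Prop :=
  ∑ a, (k a : ℤ) • v a = 0

/-- `C(k) = ∏_l (k_{l1} + ⋯ + k_{lq_l})! / (k_{l1}! ⋯ k_{lq_l}!)`. -/
def coefC {p : ℕ} {q : Fin p → ℕ} (k : Idx q →₀ ℕ) : ℚ :=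
  ∏ l, ((∑ j, k ⟨l, j⟩).factorial : ℚ) / ∏ j, ((k ⟨l, j⟩).factorial : ℚ)

open Classical in
/-- The series `φ₀ = ∑_{k ∈ K₀} C(k) z^k`, as an element of `ℚ[[z_{ij}]] ⊇ ℚ[[K₀]]`. -/
noncomputable def phi0 {d p : ℕ} {q : Fin p → ℕ} (v : Idx q → Fin d → ℤ) :
    MvPowerSeries (Idx q) ℚ :=
  fun k => if InK0 v k then coefC k else 0

open Classical in
/-- The series `φ_{ij} = ∑_{k ∈ K₀} C(k) (H(∑_m k_{im}) - H(k_{ij})) z^k`, for `a = (i,j)`. -/
noncomputable def phi {d p : ℕ} {q : Fin p → ℕ} (v : Idx q → Fin d → ℤ) (a : Idx q) :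
    MvPowerSeries (Idx q) ℚ :=
  fun k => if InK0 v k then coefC k * (harmonic (∑ m, k ⟨a.1, m⟩) - harmonic (k a)) else 0

/-- The logarithm `φ_{ij} / φ₀` of the `(i,j)` component of the naive mirror map. -/
noncomputable def logMirror {d p : ℕ} {q : Fin p → ℕ} (v : Idx q → Fin d → ℤ) (a : Idx q) :
    MvPowerSeries (Idx q) ℚ :=
  phi v a * (phi0 v)⁻¹

/-- The real vector with the same coordinates as an integer vector. -/
def toReal {d : ℕ} (x : Fin d → ℤ) : Fin d → ℝ := fun t => (x t : ℝ)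

/-- The polytope `Δ = Δ₁ + ⋯ + Δ_p` (Minkowski sum), where `Δ_i` is the convex hull of `0` and the
`v_{ij}`. -/
def poly {d p : ℕ} {q : Fin p → ℕ} (v : Idx q → Fin d → ℤ) : Set (Fin d → ℝ) :=
  ∑ i, convexHull ℝ (insert 0 (Set.range fun j => toReal (v ⟨i, j⟩)))

/-- The standing assumptions: `0` is in the interior of `Δ` and the `v_{ij}` span `ℤ^d`. -/
def Standing {d p : ℕ} {q : Fin p → ℕ} (v : Idx q → Fin d → ℤ) : Prop :=
  (0 : Fin d → ℝ) ∈ interior (poly v) ∧ Submodule.span ℤ (Set.range v) = ⊤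

/-- The data are Fano: `0` is the only lattice point in the interior of `Δ`. -/
def Fano {d p : ℕ} {q : Fin p → ℕ} (v : Idx q → Fin d → ℤ) : Prop :=
  ∀ x : Fin d → ℤ, toReal x ∈ interior (poly v) ↔ x = 0

/-! ### The example -/

/-- The sizes of the two groups. -/
def q0 : Fin 2 → ℕ := fun _ => 3

/-- The six vectors. -/
def vv : Idx q0 → Fin 3 → ℤ := fun a =>
  (![![![-1, 0, 0], ![1, 0, 1], ![1, 0, -1]],
     ![![0, 1, 0], ![0, -1, 1], ![0, -1, -1]]] : Fin 2 → Fin 3 → Fin 3 → ℤ) a.1 a.2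

/-- Exponents of the example. -/
noncomputable def mk (a b c d e f : ℕ) : Idx q0 →₀ ℕ :=
  Finsupp.equivFunOnFinite.symm fun x => (![![a, b, c], ![d, e, f]] : Fin 2 → Fin 3 → ℕ) x.1 x.2

theorem sum_idx {M : Type*} [AddCommMonoid M] (F : Idx q0 → M) :
    ∑ a, F a = F ⟨0, (0 : Fin 3)⟩ + F ⟨0, (1 : Fin 3)⟩ + F ⟨0, (2 : Fin 3)⟩ +
      (F ⟨1, (0 : Fin 3)⟩ + F ⟨1, (1 : Fin 3)⟩ + F ⟨1, (2 : Fin 3)⟩) := by
  rw [Fintype.sum_sigma, Fin.sum_univ_two]
  congr 1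
  · exact Fin.sum_univ_three (fun j : Fin 3 => F ⟨0, j⟩)
  · exact Fin.sum_univ_three (fun j : Fin 3 => F ⟨1, j⟩)

theorem mk00 (a b c d e f : ℕ) : mk a b c d e f ⟨0, (0 : Fin 3)⟩ = a := rfl
theorem mk01 (a b c d e f : ℕ) : mk a b c d e f ⟨0, (1 : Fin 3)⟩ = b := rfl
theorem mk02 (a b c d e f : ℕ) : mk a b c d e f ⟨0, (2 : Fin 3)⟩ = c := rfl
theorem mk10 (a b c d e f : ℕ) : mk a b c d e f ⟨1, (0 : Fin 3)⟩ = d := rfl
theorem mk11 (a b c d e f : ℕ) : mk a b c d e f ⟨1, (1 : Fin 3)⟩ = e := rfl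
theorem mk12 (a b c d e f : ℕ) : mk a b c d e f ⟨1, (2 : Fin 3)⟩ = f := rfl

theorem idx_cases (P : Idx q0 → Prop) (h00 : P ⟨0, (0 : Fin 3)⟩) (h01 : P ⟨0, (1 : Fin 3)⟩)
    (h02 : P ⟨0, (2 : Fin 3)⟩) (h10 : P ⟨1, (0 : Fin 3)⟩) (h11 : P ⟨1, (1 : Fin 3)⟩)
    (h12 : P ⟨1, (2 : Fin 3)⟩) (a : Idx q0) : P a := by
  obtain ⟨i, j⟩ := a
  have key : ∀ (i : Fin 2) (j : Fin 3), P ⟨i, j⟩ := by
    intro i j
    fin_cases i <;> fin_cases j
    · exact h00
    · exact h01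
    · exact h02
    · exact h10
    · exact h11
    · exact h12
  exact key i j

theorem eq_mk (y : Idx q0 →₀ ℕ) : y = mk (y ⟨0, (0 : Fin 3)⟩) (y ⟨0, (1 : Fin 3)⟩)
    (y ⟨0, (2 : Fin 3)⟩) (y ⟨1, (0 : Fin 3)⟩) (y ⟨1, (1 : Fin 3)⟩) (y ⟨1, (2 : Fin 3)⟩) := by
  ext a
  exact idx_cases (fun a => y a = mk (y ⟨0, (0 : Fin 3)⟩) (y ⟨0, (1 : Fin 3)⟩)
    (y ⟨0, (2 : Fin 3)⟩) (y ⟨1, (0 : Fin 3)⟩) (y ⟨1, (1 : Fin 3)⟩) (y ⟨1, (2 : Fin 3)⟩) a)
    rfl rfl rfl rfl rfl rfl a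

theorem mk_inj {a b c d e f a' b' c' d' e' f' : ℕ} :
    mk a b c d e f = mk a' b' c' d' e' f' ↔
      a = a' ∧ b = b' ∧ c = c' ∧ d = d' ∧ e = e' ∧ f = f' := by
  constructor
  · intro h
    exact ⟨congrArg (fun y => y ⟨0, (0 : Fin 3)⟩) h, congrArg (fun y => y ⟨0, (1 : Fin 3)⟩) h,
      congrArg (fun y => y ⟨0, (2 : Fin 3)⟩) h, congrArg (fun y => y ⟨1, (0 : Fin 3)⟩) h,
      congrArg (fun y => y ⟨1, (1 : Fin 3)⟩) h, congrArg (fun y => y ⟨1, (2 : Fin 3)⟩) h⟩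
  · rintro ⟨rfl, rfl, rfl, rfl, rfl, rfl⟩
    rfl

theorem mk_le {a b c d e f a' b' c' d' e' f' : ℕ} :
    mk a b c d e f ≤ mk a' b' c' d' e' f' ↔
      a ≤ a' ∧ b ≤ b' ∧ c ≤ c' ∧ d ≤ d' ∧ e ≤ e' ∧ f ≤ f' := by
  constructor
  · intro h
    exact ⟨h ⟨0, (0 : Fin 3)⟩, h ⟨0, (1 : Fin 3)⟩, h ⟨0, (2 : Fin 3)⟩, h ⟨1, (0 : Fin 3)⟩,
      h ⟨1, (1 : Fin 3)⟩, h ⟨1, (2 : Fin 3)⟩⟩
  · rintro ⟨h0, h1, h2, h3, h4, h5⟩
    intro x
    exact idx_cases (fun x => mk a b c d e f x ≤ mk a' b' c' d' e' f' x) h0 h1 h2 h3 h4 h5 x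

theorem mk_sub {a b c d e f a' b' c' d' e' f' : ℕ} :
    mk a b c d e f - mk a' b' c' d' e' f' =
      mk (a - a') (b - b') (c - c') (d - d') (e - e') (f - f') := by
  rw [eq_mk (mk a b c d e f - mk a' b' c' d' e' f')]
  rfl

theorem inK0_mk {a b c d e f : ℕ} : InK0 vv (mk a b c d e f) ↔
    (-(a : ℤ) + b + c = 0 ∧ (d : ℤ) - e - f = 0 ∧ (b : ℤ) - c + e - f = 0) := by
  unfold InK0
  rw [sum_idx, mk00, mk01, mk02, mk10, mk11, mk12]
  constructor
  · intro h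
    have h0 := congrFun h 0
    have h1 := congrFun h 1
    have h2 := congrFun h 2
    simp [vv] at h0 h1 h2
    refine ⟨?_, ?_, ?_⟩ <;> linarith
  · rintro ⟨h0, h1, h2⟩
    funext t
    fin_cases t
    · simp [vv]
      linarith
    · simp [vv]
      linarith
    · simp [vv]
      linarith

theorem coefC_mk (a b c d e f : ℕ) : coefC (mk a b c d e f) =
    ((a + b + c).factorial : ℚ) / ((a.factorial : ℚ) * b.factorial * c.factorial) *
    (((d + e + f).factorial : ℚ) / ((d.factorial : ℚ) * e.factorial * f.factorial)) := by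
  unfold coefC
  rw [Fin.prod_univ_two]
  congr 1
  · have h1 : (∑ j : Fin (q0 0), mk a b c d e f ⟨0, j⟩) = a + b + c :=
      Fin.sum_univ_three (fun j : Fin 3 => mk a b c d e f ⟨0, j⟩)
    have h2 : (∏ j : Fin (q0 0), ((mk a b c d e f ⟨0, j⟩).factorial : ℚ)) =
        (a.factorial : ℚ) * b.factorial * c.factorial :=
      Fin.prod_univ_three (fun j : Fin 3 => ((mk a b c d e f ⟨0, j⟩).factorial : ℚ))
    rw [h1, h2]
  · have h1 : (∑ j : Fin (q0 1), mk a b c d e f ⟨1, j⟩) = d + e + f :=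
      Fin.sum_univ_three (fun j : Fin 3 => mk a b c d e f ⟨1, j⟩)
    have h2 : (∏ j : Fin (q0 1), ((mk a b c d e f ⟨1, j⟩).factorial : ℚ)) =
        (d.factorial : ℚ) * e.factorial * f.factorial :=
      Fin.prod_univ_three (fun j : Fin 3 => ((mk a b c d e f ⟨1, j⟩).factorial : ℚ))
    rw [h1, h2]

/-- The elements of `K₀` below `(2,1,1;2,1,1)`. -/
noncomputable def T : Finset (Idx q0 →₀ ℕ) :=
  {mk 0 0 0 0 0 0, mk 2 1 1 0 0 0, mk 0 0 0 2 1 1, mk 1 1 0 1 0 1, mk 1 0 1 1 1 0,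
    mk 2 1 1 2 1 1}

theorem six_cases (a b c d e f : ℕ) (hb : b ≤ 1) (hc : c ≤ 1)
    (he : e ≤ 1) (hf : f ≤ 1) (h0 : -(a : ℤ) + b + c = 0) (h1 : (d : ℤ) - e - f = 0)
    (h2 : (b : ℤ) - c + e - f = 0) :
    (a = 0 ∧ b = 0 ∧ c = 0 ∧ d = 0 ∧ e = 0 ∧ f = 0) ∨
    (a = 2 ∧ b = 1 ∧ c = 1 ∧ d = 0 ∧ e = 0 ∧ f = 0) ∨
    (a = 0 ∧ b = 0 ∧ c = 0 ∧ d = 2 ∧ e = 1 ∧ f = 1) ∨
    (a = 1 ∧ b = 1 ∧ c = 0 ∧ d = 1 ∧ e = 0 ∧ f = 1) ∨
    (a = 1 ∧ b = 0 ∧ c = 1 ∧ d = 1 ∧ e = 1 ∧ f = 0) ∨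
    (a = 2 ∧ b = 1 ∧ c = 1 ∧ d = 2 ∧ e = 1 ∧ f = 1) := by
  interval_cases b <;> interval_cases c <;> interval_cases e <;> interval_cases f <;> omega

theorem mem_T {y : Idx q0 →₀ ℕ} (hy : y ≤ mk 2 1 1 2 1 1) (hK : InK0 vv y) : y ∈ T := by
  rw [eq_mk y] at hy hK
  rw [mk_le] at hy
  rw [inK0_mk] at hK
  obtain ⟨_, hb, hc, _, he, hf⟩ := hy
  obtain ⟨h0, h1, h2⟩ := hK
  have h := six_cases _ _ _ _ _ _ hb hc he hf h0 h1 h2
  rw [eq_mk y]
  unfold T
  rcases h with h | h | h | h | h | h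
  all_goals
    obtain ⟨h0, h1, h2, h3, h4, h5⟩ := h
    rw [h0, h1, h2, h3, h4, h5]
    simp

theorem coeff_phi0_pos {y : Idx q0 →₀ ℕ} (h : InK0 vv y) :
    MvPowerSeries.coeff y (phi0 vv) = coefC y := if_pos h

theorem coeff_phi0_neg {y : Idx q0 →₀ ℕ} (h : ¬ InK0 vv y) :
    MvPowerSeries.coeff y (phi0 vv) = 0 := if_neg h

open Classical in
theorem coeff_conv (F : MvPowerSeries (Idx q0) ℚ) (n : Idx q0 →₀ ℕ) (hn : n ≤ mk 2 1 1 2 1 1) :
    MvPowerSeries.coeff n (F * phi0 vv) =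
      ∑ y ∈ T.filter (fun y => y ≤ n ∧ InK0 vv y), MvPowerSeries.coeff (n - y) F * coefC y := by
  rw [MvPowerSeries.coeff_mul]
  symm
  refine Finset.sum_bij_ne_zero (fun y _ _ => (n - y, y)) ?_ ?_ ?_ ?_
  · intro y hy _
    rw [Finset.HasAntidiagonal.mem_antidiagonal]
    exact tsub_add_cancel_of_le (Finset.mem_filter.1 hy).2.1
  · intro y1 _ _ y2 _ _ h
    exact (Prod.mk.inj h).2
  · intro b hb hne
    have hb2 : InK0 vv b.2 := by
      by_contra hK
      apply hne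
      rw [coeff_phi0_neg hK, mul_zero]
    rw [Finset.HasAntidiagonal.mem_antidiagonal] at hb
    have hle : b.2 ≤ n := by
      rw [← hb]
      exact le_add_self
    have hsub : n - b.2 = b.1 := by
      rw [← hb]
      exact add_tsub_cancel_right _ _
    refine ⟨b.2, Finset.mem_filter.2 ⟨mem_T (hle.trans hn) hb2, hle, hb2⟩, ?_, ?_⟩
    · intro h0
      apply hne
      rw [hsub] at h0
      rw [coeff_phi0_pos hb2]
      exact h0
    · rw [hsub]
  · intro y hy _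
    have hK := (Finset.mem_filter.1 hy).2.2
    rw [coeff_phi0_pos hK]

theorem logMirror_mul : logMirror vv ⟨0, (0 : Fin 3)⟩ * phi0 vv = phi vv ⟨0, (0 : Fin 3)⟩ := by
  unfold logMirror
  rw [mul_assoc, MvPowerSeries.inv_mul_cancel, mul_one]
  rw [← MvPowerSeries.coeff_zero_eq_constantCoeff_apply]
  have h0 : (0 : Idx q0 →₀ ℕ) = mk 0 0 0 0 0 0 := by
    rw [eq_mk 0]
    rfl
  have hK : InK0 vv (0 : Idx q0 →₀ ℕ) := by
    rw [h0, inK0_mk]
    norm_num
  rw [coeff_phi0_pos hK, h0, coefC_mk]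
  norm_num

theorem phi_mk (a b c d e f : ℕ) (h : InK0 vv (mk a b c d e f)) :
    MvPowerSeries.coeff (mk a b c d e f) (phi vv ⟨0, (0 : Fin 3)⟩) =
      coefC (mk a b c d e f) * (harmonic (a + b + c) - harmonic a) := by
  have h1 : (∑ j : Fin (q0 0), mk a b c d e f ⟨0, j⟩) = a + b + c :=
    Fin.sum_univ_three (fun j : Fin 3 => mk a b c d e f ⟨0, j⟩)
  have h2 : MvPowerSeries.coeff (mk a b c d e f) (phi vv ⟨0, (0 : Fin 3)⟩) =
      coefC (mk a b c d e f) * (harmonic (∑ m : Fin (q0 0), mk a b c d e f ⟨0, m⟩) -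
        harmonic (mk a b c d e f ⟨0, (0 : Fin 3)⟩)) := if_pos h
  rw [h2, h1, mk00]

theorem coeff_value :
    MvPowerSeries.coeff (mk 2 1 1 2 1 1) (logMirror vv ⟨0, (0 : Fin 3)⟩) = -16 := by
  classical
  set L := logMirror vv ⟨0, (0 : Fin 3)⟩ with hL
  have key : ∀ a b c d e f : ℕ, mk a b c d e f ≤ mk 2 1 1 2 1 1 → InK0 vv (mk a b c d e f) →
      ∑ y ∈ T.filter (fun y => y ≤ mk a b c d e f ∧ InK0 vv y),
        MvPowerSeries.coeff (mk a b c d e f - y) L * coefC y =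
      coefC (mk a b c d e f) * (harmonic (a + b + c) - harmonic a) := by
    intro a b c d e f hle hK
    rw [← coeff_conv L _ hle, hL, logMirror_mul, phi_mk _ _ _ _ _ _ hK]
  have e0 := key 0 0 0 0 0 0 (by rw [mk_le]; norm_num) (by rw [inK0_mk]; norm_num)
  have e1 := key 2 1 1 0 0 0 (by rw [mk_le]; norm_num) (by rw [inK0_mk]; norm_num)
  have e2 := key 0 0 0 2 1 1 (by rw [mk_le]; norm_num) (by rw [inK0_mk]; norm_num)
  have e3 := key 1 1 0 1 0 1 (by rw [mk_le]; norm_num) (by rw [inK0_mk]; norm_num)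
  have e4 := key 1 0 1 1 1 0 (by rw [mk_le]; norm_num) (by rw [inK0_mk]; norm_num)
  have e5 := key 2 1 1 2 1 1 (by rw [mk_le]; norm_num) (by rw [inK0_mk]; norm_num)
  unfold T at e0 e1 e2 e3 e4 e5
  simp [Finset.filter_insert, Finset.filter_singleton, mk_le, inK0_mk, mk_inj, mk_sub, coefC_mk,
    Nat.factorial, harmonic, Finset.sum_range_succ] at e0 e1 e2 e3 e4 e5
  rw [e0] at e1 e2 e3 e4 e5
  norm_num at e1 e2 e3 e4 e5
  rw [e1, e2, e3, e4] at e5
  linarith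

/-! ### The polytope -/

/-- The first summand. -/
def P1 : Set (Fin 3 → ℝ) :=
  convexHull ℝ (insert 0 (Set.range fun j : Fin (q0 0) => toReal (vv ⟨0, j⟩)))

/-- The second summand. -/
def P2 : Set (Fin 3 → ℝ) :=
  convexHull ℝ (insert 0 (Set.range fun j : Fin (q0 1) => toReal (vv ⟨1, j⟩)))

theorem poly_eq : poly vv = P1 + P2 := Fin.sum_univ_two _

theorem P1_mem (x z : ℝ) (h1 : x ≤ 1) (h2 : 2 * z ≤ 1 + x) (h3 : -(1 + x) ≤ 2 * z) :
    ![x, 0, z] ∈ P1 := by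
  have hm : ∀ j : Fin 3, toReal (vv ⟨0, j⟩) ∈ P1 := fun j =>
    subset_convexHull ℝ _ (Set.mem_insert_of_mem _ ⟨j, rfl⟩)
  have hs := (convex_convexHull ℝ (insert 0 (Set.range fun j : Fin (q0 0) =>
    toReal (vv ⟨0, j⟩)))).sum_mem (t := Finset.univ)
    (w := ![(1 - x) / 2, ((1 + x) / 2 + z) / 2, ((1 + x) / 2 - z) / 2])
    (z := fun j : Fin 3 => toReal (vv ⟨0, j⟩))
    (by
      intro i _
      fin_cases i
      · simp
        linarith
      · simp
        linarith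
      · simp
        linarith)
    (by
      rw [Fin.sum_univ_three]
      simp
      ring)
    (fun i _ => hm i)
  rw [Fin.sum_univ_three] at hs
  have : ![x, 0, z] = ![(1 - x) / 2, ((1 + x) / 2 + z) / 2, ((1 + x) / 2 - z) / 2] 0 •
      toReal (vv ⟨0, (0 : Fin 3)⟩) +
      ![(1 - x) / 2, ((1 + x) / 2 + z) / 2, ((1 + x) / 2 - z) / 2] 1 •
      toReal (vv ⟨0, (1 : Fin 3)⟩) +
      ![(1 - x) / 2, ((1 + x) / 2 + z) / 2, ((1 + x) / 2 - z) / 2] 2 •
      toReal (vv ⟨0, (2 : Fin 3)⟩) := by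
    funext t
    fin_cases t
    · simp [toReal, vv]
      ring
    · simp [toReal, vv]
    · simp [toReal, vv]
      ring
  rw [this]
  exact hs

theorem P2_mem (y z : ℝ) (h1 : -1 ≤ y) (h2 : 2 * z ≤ 1 - y) (h3 : -(1 - y) ≤ 2 * z) :
    ![0, y, z] ∈ P2 := by
  have hm : ∀ j : Fin 3, toReal (vv ⟨1, j⟩) ∈ P2 := fun j =>
    subset_convexHull ℝ _ (Set.mem_insert_of_mem _ ⟨j, rfl⟩)
  have hs := (convex_convexHull ℝ (insert 0 (Set.range fun j : Fin (q0 1) =>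
    toReal (vv ⟨1, j⟩)))).sum_mem (t := Finset.univ)
    (w := ![(1 + y) / 2, ((1 - y) / 2 + z) / 2, ((1 - y) / 2 - z) / 2])
    (z := fun j : Fin 3 => toReal (vv ⟨1, j⟩))
    (by
      intro i _
      fin_cases i
      · simp
        linarith
      · simp
        linarith
      · simp
        linarith)
    (by
      rw [Fin.sum_univ_three]
      simp
      ring)
    (fun i _ => hm i)
  rw [Fin.sum_univ_three] at hs
  have : ![0, y, z] = ![(1 + y) / 2, ((1 - y) / 2 + z) / 2, ((1 - y) / 2 - z) / 2] 0 •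
      toReal (vv ⟨1, (0 : Fin 3)⟩) +
      ![(1 + y) / 2, ((1 - y) / 2 + z) / 2, ((1 - y) / 2 - z) / 2] 1 •
      toReal (vv ⟨1, (1 : Fin 3)⟩) +
      ![(1 + y) / 2, ((1 - y) / 2 + z) / 2, ((1 - y) / 2 - z) / 2] 2 •
      toReal (vv ⟨1, (2 : Fin 3)⟩) := by
    funext t
    fin_cases t
    · simp [toReal, vv]
    · simp [toReal, vv]
      ring
    · simp [toReal, vv]
      ring
  rw [this]
  exact hs

theorem zero_mem_interior : (0 : Fin 3 → ℝ) ∈ interior (poly vv) := by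
  rw [mem_interior]
  refine ⟨{x | |x 0| < 1 / 2 ∧ |x 1| < 1 / 2 ∧ |x 2| < 1 / 2}, ?_, ?_, by simp⟩
  · rintro x ⟨h0, h1, h2⟩
    rw [abs_lt] at h0 h1 h2
    rw [poly_eq]
    refine Set.mem_add.2 ⟨![x 0, 0, x 2 / 2], P1_mem _ _ (by linarith) (by linarith)
      (by linarith), ![0, x 1, x 2 / 2], P2_mem _ _ (by linarith) (by linarith) (by linarith), ?_⟩
    funext t
    fin_cases t
    · simp
    · simp
    · simp
  · have c0 : IsOpen {x : Fin 3 → ℝ | |x 0| < 1 / 2} :=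
      isOpen_lt (continuous_abs.comp (continuous_apply 0)) continuous_const
    have c1 : IsOpen {x : Fin 3 → ℝ | |x 1| < 1 / 2} :=
      isOpen_lt (continuous_abs.comp (continuous_apply 1)) continuous_const
    have c2 : IsOpen {x : Fin 3 → ℝ | |x 2| < 1 / 2} :=
      isOpen_lt (continuous_abs.comp (continuous_apply 2)) continuous_const
    exact c0.inter (c1.inter c2)

/-- A linear bound on the polytope is strict in its interior. -/
theorem strict_of_interior (S : Set (Fin 3 → ℝ)) (l : Fin 3 → ℝ) (hl : l ≠ 0) (c : ℝ)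
    (h : ∀ x ∈ S, ∑ t, l t * x t ≤ c) (x : Fin 3 → ℝ) (hx : x ∈ interior S) :
    ∑ t, l t * x t < c := by
  have hc : Filter.Tendsto (fun s : ℝ => x + s • l) (nhdsWithin 0 (Set.Ioi 0)) (nhds x) := by
    have : Continuous fun s : ℝ => x + s • l := by fun_prop
    have h2 := this.tendsto 0
    simp only [zero_smul, add_zero] at h2
    exact h2.mono_left nhdsWithin_le_nhds
  have h1 : ∀ᶠ s in nhdsWithin (0 : ℝ) (Set.Ioi 0), x + s • l ∈ S :=
    hc.eventually (mem_interior_iff_mem_nhds.1 hx)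
  have h2 : ∀ᶠ s in nhdsWithin (0 : ℝ) (Set.Ioi 0), s ∈ Set.Ioi (0 : ℝ) :=
    eventually_mem_nhdsWithin
  obtain ⟨s, hs1, hs2⟩ := (h1.and h2).exists
  have h3 := h _ hs1
  have h4 : ∑ t, l t * (x + s • l) t = ∑ t, l t * x t + s * ∑ t, l t * l t := by
    rw [Finset.mul_sum, ← Finset.sum_add_distrib]
    refine Finset.sum_congr rfl fun t _ => ?_
    simp
    ring
  have h5 : 0 < ∑ t, l t * l t := by
    obtain ⟨t, ht⟩ := Function.ne_iff.1 hl
    refine Finset.sum_pos' (fun i _ => mul_self_nonneg _) ⟨t, Finset.mem_univ _, ?_⟩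
    exact mul_self_pos.2 ht
  have h6 : 0 < s * ∑ t, l t * l t := mul_pos hs2 h5
  linarith

theorem bound_hull (A : Set (Fin 3 → ℝ)) (l : Fin 3 → ℝ) (c : ℝ)
    (h : ∀ x ∈ A, ∑ t, l t * x t ≤ c) : ∀ x ∈ convexHull ℝ A, ∑ t, l t * x t ≤ c := by
  have hconv : Convex ℝ {x : Fin 3 → ℝ | ∑ t, l t * x t ≤ c} := by
    intro x hx y hy a b ha hb hab
    simp only [Set.mem_ofPred_eq] at hx hy ⊢
    have : ∑ t, l t * (a • x + b • y) t = a * ∑ t, l t * x t + b * ∑ t, l t * y t := by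
      rw [Finset.mul_sum, Finset.mul_sum, ← Finset.sum_add_distrib]
      refine Finset.sum_congr rfl fun t _ => ?_
      simp
      ring
    rw [this]
    calc a * ∑ t, l t * x t + b * ∑ t, l t * y t ≤ a * c + b * c :=
          add_le_add (mul_le_mul_of_nonneg_left hx ha) (mul_le_mul_of_nonneg_left hy hb)
      _ = c := by rw [← add_mul, hab, one_mul]
  exact convexHull_min h hconv

theorem bound_poly (l : Fin 3 → ℝ) (c1 c2 : ℝ) (h10 : 0 ≤ c1) (h20 : 0 ≤ c2)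
    (h1 : ∀ j : Fin 3, ∑ t, l t * toReal (vv ⟨0, j⟩) t ≤ c1)
    (h2 : ∀ j : Fin 3, ∑ t, l t * toReal (vv ⟨1, j⟩) t ≤ c2) :
    ∀ x ∈ poly vv, ∑ t, l t * x t ≤ c1 + c2 := by
  intro x hx
  rw [poly_eq] at hx
  obtain ⟨y, hy, z, hz, rfl⟩ := Set.mem_add.1 hx
  have hy' : ∑ t, l t * y t ≤ c1 := by
    refine bound_hull _ l c1 ?_ y hy
    rintro w (rfl | ⟨j, rfl⟩)
    · simpa using h10
    · exact h1 j
  have hz' : ∑ t, l t * z t ≤ c2 := by
    refine bound_hull _ l c2 ?_ z hz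
    rintro w (rfl | ⟨j, rfl⟩)
    · simpa using h20
    · exact h2 j
  have : ∑ t, l t * (y + z) t = ∑ t, l t * y t + ∑ t, l t * z t := by
    rw [← Finset.sum_add_distrib]
    refine Finset.sum_congr rfl fun t _ => ?_
    simp
    ring
  rw [this]
  linarith

theorem interior_bound (l : Fin 3 → ℝ) (hl : l ≠ 0) (c1 c2 : ℝ) (h10 : 0 ≤ c1) (h20 : 0 ≤ c2)
    (h1 : ∀ j : Fin 3, ∑ t, l t * toReal (vv ⟨0, j⟩) t ≤ c1)
    (h2 : ∀ j : Fin 3, ∑ t, l t * toReal (vv ⟨1, j⟩) t ≤ c2)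
    (x : Fin 3 → ℝ) (hx : x ∈ interior (poly vv)) :
    l 0 * x 0 + l 1 * x 1 + l 2 * x 2 < c1 + c2 := by
  have := strict_of_interior _ l hl (c1 + c2) (bound_poly l c1 c2 h10 h20 h1 h2) x hx
  rwa [Fin.sum_univ_three] at this

theorem fano_vv : Fano vv := by
  intro x
  constructor
  · intro hx
    have b1 := interior_bound ![1, 0, 0] (by
      intro h
      have := congrFun h 0
      simp at this) 1 0 (by norm_num) (by norm_num) (by
        intro j
        rw [Fin.sum_univ_three]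
        fin_cases j <;> simp [toReal, vv]) (by
        intro j
        rw [Fin.sum_univ_three]
        fin_cases j <;> simp [toReal, vv]) _ hx
    have b2 := interior_bound ![-1, 0, 0] (by
      intro h
      have := congrFun h 0
      simp at this) 1 0 (by norm_num) (by norm_num) (by
        intro j
        rw [Fin.sum_univ_three]
        fin_cases j <;> simp [toReal, vv] <;> norm_num) (by
        intro j
        rw [Fin.sum_univ_three]
        fin_cases j <;> simp [toReal, vv]) _ hx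
    have b3 := interior_bound ![0, 1, 0] (by
      intro h
      have := congrFun h 1
      simp at this) 0 1 (by norm_num) (by norm_num) (by
        intro j
        rw [Fin.sum_univ_three]
        fin_cases j <;> simp [toReal, vv]) (by
        intro j
        rw [Fin.sum_univ_three]
        fin_cases j <;> simp [toReal, vv] <;> norm_num) _ hx
    have b4 := interior_bound ![0, -1, 0] (by
      intro h
      have := congrFun h 1
      simp at this) 0 1 (by norm_num) (by norm_num) (by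
        intro j
        rw [Fin.sum_univ_three]
        fin_cases j <;> simp [toReal, vv]) (by
        intro j
        rw [Fin.sum_univ_three]
        fin_cases j <;> simp [toReal, vv] <;> norm_num) _ hx
    have b5 := interior_bound ![-1, 1, 2] (by
      intro h
      have := congrFun h 1
      simp at this) 1 1 (by norm_num) (by norm_num) (by
        intro j
        rw [Fin.sum_univ_three]
        fin_cases j <;> simp [toReal, vv] <;> norm_num) (by
        intro j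
        rw [Fin.sum_univ_three]
        fin_cases j <;> simp [toReal, vv] <;> norm_num) _ hx
    have b6 := interior_bound ![-1, 1, -2] (by
      intro h
      have := congrFun h 1
      simp at this) 1 1 (by norm_num) (by norm_num) (by
        intro j
        rw [Fin.sum_univ_three]
        fin_cases j <;> simp [toReal, vv] <;> norm_num) (by
        intro j
        rw [Fin.sum_univ_three]
        fin_cases j <;> simp [toReal, vv] <;> norm_num) _ hx
    simp [toReal] at b1 b2 b3 b4 b5 b6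
    have a1 : x 0 < 1 := by exact_mod_cast b1
    have a2 : -x 0 < 1 := by exact_mod_cast b2
    have a3 : x 1 < 1 := by exact_mod_cast b3
    have a4 : -x 1 < 1 := by exact_mod_cast b4
    have a5 : -x 0 + x 1 + 2 * x 2 < 1 + 1 := by exact_mod_cast b5
    have a6 : x 1 < x 0 + (1 + 1 + 2 * x 2) := by exact_mod_cast b6
    have z0 : x 0 = 0 := by omega
    have z1 : x 1 = 0 := by omega
    have z2 : x 2 = 0 := by omega
    funext t
    fin_cases t
    · exact z0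
    · exact z1
    · exact z2
  · rintro rfl
    have : toReal (0 : Fin 3 → ℤ) = 0 := by
      funext t
      simp [toReal]
    rw [this]
    exact zero_mem_interior

theorem span_vv : Submodule.span ℤ (Set.range vv) = ⊤ := by
  rw [eq_top_iff]
  intro x _
  have hx : x = (x 2 - x 0) • vv ⟨0, (0 : Fin 3)⟩ + x 2 • vv ⟨0, (1 : Fin 3)⟩ +
      x 1 • vv ⟨1, (0 : Fin 3)⟩ := by
    funext t
    fin_cases t
    · simp [vv]
    · simp [vv]
    · simp [vv]
  rw [hx]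
  exact Submodule.add_mem _ (Submodule.add_mem _
    (Submodule.smul_mem _ _ (Submodule.subset_span ⟨_, rfl⟩))
    (Submodule.smul_mem _ _ (Submodule.subset_span ⟨_, rfl⟩)))
    (Submodule.smul_mem _ _ (Submodule.subset_span ⟨_, rfl⟩))

/-- **The answer to Q1 is negative.** There are Fano data satisfying the standing assumptions
(with `d = 3`, `p = 2`, `q = (3, 3)`, all six vectors distinct and non-zero), an index `(i, j)`
and an exponent `k ∈ K₀` such that the coefficient of `z^k` in `φ_{ij} / φ₀` is negative. -/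
theorem result : ∃ (d p : ℕ) (q : Fin p → ℕ) (v : Idx q → Fin d → ℤ),
    1 ≤ d ∧ 1 ≤ p ∧ (∀ i, 1 ≤ q i) ∧ Function.Injective v ∧ (∀ a, v a ≠ 0) ∧
    Standing v ∧ Fano v ∧
    ∃ (a : Idx q) (k : Idx q →₀ ℕ), InK0 v k ∧ MvPowerSeries.coeff k (logMirror v a) < 0 := by
  refine ⟨3, 2, q0, vv, by norm_num, by norm_num, fun _ => by simp [q0], ?_, ?_,
    ⟨zero_mem_interior, span_vv⟩, fano_vv, ⟨0, (0 : Fin 3)⟩, mk 2 1 1 2 1 1, ?_, ?_⟩
  · rintro ⟨i, j⟩ ⟨i', j'⟩ hij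
    have key : ∀ (i : Fin 2) (j : Fin 3) (i' : Fin 2) (j' : Fin 3),
        (![![![-1, 0, 0], ![1, 0, 1], ![1, 0, -1]],
          ![![0, 1, 0], ![0, -1, 1], ![0, -1, -1]]] : Fin 2 → Fin 3 → Fin 3 → ℤ) i j =
        (![![![-1, 0, 0], ![1, 0, 1], ![1, 0, -1]],
          ![![0, 1, 0], ![0, -1, 1], ![0, -1, -1]]] : Fin 2 → Fin 3 → Fin 3 → ℤ) i' j' →
        i = i' ∧ j = j' := by decide
    obtain ⟨h1, h2⟩ := key i j i' j' hij
    subst h1
    exact congrArg _ h2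
  · rintro ⟨i, j⟩ hij
    have key : ∀ (i : Fin 2) (j : Fin 3),
        (![![![-1, 0, 0], ![1, 0, 1], ![1, 0, -1]],
          ![![0, 1, 0], ![0, -1, 1], ![0, -1, -1]]] : Fin 2 → Fin 3 → Fin 3 → ℤ) i j ≠ 0 := by
      decide
    exact key i j hij
  · rw [inK0_mk]
    norm_num
  · rw [coeff_value]
    norm_num

end Pool.Agent.Results.MP_3570a5_nt.NegativeCoefficient
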